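import Mathlib
import Pool.Agent.KS6_1.RF.LogConc

set_option autoImplicit false

/-!
# Log-concavity of the chromatic coefficients in the falling-factorial basis fails at every index
`j ≥ 4` and by an arbitrarily large factor

The coefficient `b_k(G)` of the chromatic polynomial of `G` at the falling factorial `(λ)_k` is the
number of partitions of the vertex set of `G` into `k` nonempty independent sets.
-/

namespace Pool.Agent.Results.MP_ee26cf_co.EveryIndexAnyFactor

/-- The number of partitions of the vertex set of `G` into `k` nonempty independent sets, i.e. of
equivalence relations on the vertices with `k` classes in which adjacent vertices are never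
equivalent. -/
noncomputable def b {V : Type} (G : SimpleGraph V) (k : ℕ) : ℕ :=
  {s : Setoid V | Nat.card (Quotient s) = k ∧ ∀ u v, G.Adj u v → ¬ s u v}.ncard

theorem result : ∀ j C : ℕ, 4 ≤ j → ∃ (V : Type) (_ : Finite V) (G : SimpleGraph V),
    0 < b G (j + 1) ∧ C * b G (j + 1) ^ 2 < b G j * b G (j + 2) :=
  fun j C hj => KS6_1.RF.LogConc.main j C hj

end Pool.Agent.Results.MP_ee26cf_co.EveryIndexAnyFactor
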